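import Pool.Agent.Helper80.HG.Interval
import Pool.Agent.Helper15.AH.M_BS
import Pool.Agent.Helper89.AH.M_BA
import Pool.Agent.Helper10.HG.M_KN
import Pool.Agent.Helper11.HG.M_PC
import Pool.Agent.Helper13.HG.M_CE
import Pool.Agent.Helper16.HG.M_QT
import Pool.Agent.Helper18.HG.M_LN
import Pool.Agent.Helper37.HG.M_CD
import Pool.Agent.Helper38.HG.M_OA
import Pool.Agent.Helper40.HG.M_CM
import Pool.Agent.Helper41.HG.M_NV
import Pool.Agent.Helper42.HG.M_RB
import Pool.Agent.Helper44.HG.M_SQ
import Pool.Agent.Helper45.HG.M_DP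
import Pool.Agent.Helper52.HG.M_XP
import Pool.Agent.Helper57.HG.M_SB
import Pool.Agent.Helper64.HG.M_NM
import Pool.Agent.Helper75.HG.M_LB
import Pool.Agent.Helper80.HG.M_SC
import Pool.Agent.Helper8.HG.M_LC
import Pool.Agent.Helper82.HG.M_CO
import Pool.Agent.Helper82.HG.M_WN
import Pool.Agent.Helper89.HG.M_JP
import Pool.Agent.Helper97.HG.M_LA
import Pool.Agent.Helper99.HG.M_HB

import Pool.Agent.Helper80.HG.AsmL
import Pool.Agent.Helper80.HG.M_HL
import Pool.Agent.Helper80.HG.M_GD
import Pool.Agent.Helper69.HG.M_FR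
import Pool.Agent.Helper69.HG.M_ZN
import Pool.Agent.Helper66.HG.M_EA
import Pool.Agent.Helper74.HG.M_EB
import Pool.Agent.Helper98.HG.M_TW
import Pool.Agent.Helper39.HG.M_AL
import Pool.Agent.Helper37.HG.M_AD
import Pool.Agent.Helper14.HG.M_IC
import Pool.Agent.Helper18.HG.M_RO
import Pool.Agent.Helper42.HG.M_LV

/-!
# MP_1bacb5_al: groups of finite special rank and germs in Hardy fields

Let `H` be a Hardy field (of germs at `+∞`) closed under composition, containing `exp` and `log`,
and levelled; for instance all germs at `+∞` of functions definable in `R_an,exp`.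

* `germ_groups`: if a group `Γ` of finite special rank acts by germs at `+∞` of functions of `H`,
  then its second derived subgroup acts trivially. So every group of finite special rank of germs
  of `H` is metabelian.
* `result`: let `G` be a group of finite special rank of increasing homeomorphisms of `[0, 1]`
  (increasing bijections of the line which fix all points outside `[0, 1]`). Suppose that for every
  common fixed point `p` of `G` and every `g ∈ G` the germs of `g` on the right and on the left of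
  `p`, written in the coordinate `u = 1 / |x - p|`, belong to `H`. Then `G` is metabelian. Nothing
  is assumed at other points. For instance all groups of finite special rank of
  `R_an,exp`-definable homeomorphisms of `[0, 1]` are metabelian.
* `le_levelled`: Hardy's logarithmico-exponential functions are such a class `H`.
-/

set_option autoImplicit false

namespace Pool.Agent.Results.MP_1bacb5_al.HardyGerms

open Filter Topology

/-- special rank at most `r`: every finitely generated subgroup is generated by at most `r`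
elements -/
def SpecialRankLE (G : Type) [Group G] (r : ℕ) : Prop :=
  ∀ H : Subgroup G, H.FG → ∃ s : Finset G, s.card ≤ r ∧ Subgroup.closure (s : Set G) = H

/-- The germs at `+∞` of the functions in `H` form a Hardy field which contains the real constants,
the identity, `exp` and `log`, is closed under composition (with inner functions tending to `+∞`)
and is levelled. Membership in `H` depends only on the germ at `+∞`. -/
structure LevelledHardyField (H : Set (ℝ → ℝ)) : Prop where
  /-- membership depends only on the germ at `+∞` -/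
  congr : ∀ f ∈ H, ∀ g : ℝ → ℝ, (∀ᶠ x in atTop, f x = g x) → g ∈ H
  const : ∀ c : ℝ, (fun _ => c) ∈ H
  id : (fun x => x) ∈ H
  add : ∀ f ∈ H, ∀ g ∈ H, (fun x => f x + g x) ∈ H
  mul : ∀ f ∈ H, ∀ g ∈ H, (fun x => f x * g x) ∈ H
  inv : ∀ f ∈ H, (fun x => (f x)⁻¹) ∈ H
  /-- every function is zero, positive or negative near `+∞` -/
  sign : ∀ f ∈ H, (∀ᶠ x in atTop, f x = 0) ∨ (∀ᶠ x in atTop, 0 < f x) ∨ ∀ᶠ x in atTop, f x < 0
  /-- closed under differentiation -/
  deriv : ∀ f ∈ H, ∃ f' ∈ H, ∀ᶠ x in atTop, HasDerivAt f (f' x) x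
  /-- closed under composition -/
  comp : ∀ f ∈ H, ∀ g ∈ H, Tendsto g atTop atTop → (fun x => f (g x)) ∈ H
  exp : Real.exp ∈ H
  log : Real.log ∈ H
  /-- levelled: `log^[m] (f (exp^[n] x)) = x + o(1)` for some `m` and `n`, if `f → +∞` -/
  lev : ∀ f ∈ H, Tendsto f atTop atTop → ∃ m n : ℕ,
    Tendsto (fun x => Real.log^[m] (f (Real.exp^[n] x)) - x) atTop (𝓝 0)

open Pool.Agent.Helper80.HG in
theorem allSt : AllSt where
  hHB := Pool.Agent.Helper99.HG.hHB
  hRB := Pool.Agent.Helper42.HG.hRB
  hSB := Pool.Agent.Helper57.HG.hSB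
  hLN := Pool.Agent.Helper18.HG.hLN
  hDP := Pool.Agent.Helper45.HG.hDP
  hCM := Pool.Agent.Helper40.HG.hCM
  hWN := Pool.Agent.Helper82.HG.hWN
  hPC := Pool.Agent.Helper11.HG.hPC
  hSQ := Pool.Agent.Helper44.HG.hSQ
  hXP := Pool.Agent.Helper52.HG.hXP
  hKN := Pool.Agent.Helper10.HG.hKN
  hNV := Pool.Agent.Helper41.HG.hNV
  hNM := Pool.Agent.Helper64.HG.hNM
  hLA := Pool.Agent.Helper97.HG.hLA
  hJP := Pool.Agent.Helper89.HG.hJP
  hCO := Pool.Agent.Helper82.HG.hCO
  hCD := Pool.Agent.Helper37.HG.hCD
  hCE := Pool.Agent.Helper13.HG.hCE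
  hLC := Pool.Agent.Helper8.HG.hLC
  hLB := Pool.Agent.Helper75.HG.hLB
  hSC := Pool.Agent.Helper80.HG.hSC
  hOA := Pool.Agent.Helper38.HG.hOA
  hQT := Pool.Agent.Helper16.HG.hQT

open Pool.Agent.Helper80.HG in
theorem allL : AllL where
  hHL := Pool.Agent.Helper80.HG.hHL
  hFR := Pool.Agent.Helper69.HG.hFR
  hEA := Pool.Agent.Helper66.HG.hEA
  hEB := Pool.Agent.Helper74.HG.hEB
  hZN := Pool.Agent.Helper69.HG.hZN
  hGD := Pool.Agent.Helper80.HG.hGD
  hTW := Pool.Agent.Helper98.HG.hTW
  hAL := Pool.Agent.Helper39.HG.hAL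
  hAD := Pool.Agent.Helper37.HG.hAD
  hIC := Pool.Agent.Helper14.HG.hIC
  hCH := Pool.Agent.Helper80.HG.hCH
  hRO := Pool.Agent.Helper18.HG.hRO
  hLV := Pool.Agent.Helper42.HG.hLV

/-- Hardy's logarithmico-exponential functions (`LE`: built from the constants and `x` by sums,
products, inverses, `exp` and `log`; functions which agree near `+∞` are identified) form a
levelled Hardy field closed under composition. -/
theorem le_levelled : LevelledHardyField {f | Pool.Agent.Helper80.HG.LE f} := by
  have h := Pool.Agent.Helper80.HG.le_hf allL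
  exact ⟨h.congr, h.const, h.id, h.add, h.mul, h.inv, h.sign, h.deriv, h.comp, h.exp, h.log,
    h.lev⟩

theorem hf_of {H : Set (ℝ → ℝ)} (h : LevelledHardyField H) : Pool.Agent.Helper80.HG.HF H :=
  ⟨h.congr, h.const, h.id, h.add, h.mul, h.inv, h.sign, h.deriv, h.comp, h.exp, h.log, h.lev⟩

/-- Let a group `Γ` of special rank at most `r` act by germs at `+∞` of functions of `H`:
`θ g ∈ H`, `θ g → +∞`, and `θ 1 = id`, `θ (g * h) = θ g ∘ θ h` near `+∞`. Then the second derived
subgroup of `Γ` acts trivially: `θ g = id` near `+∞` for all its elements `g`. -/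
theorem germ_groups (H : Set (ℝ → ℝ)) (hH : LevelledHardyField H) (r : ℕ) (Γ : Type) [Group Γ]
    (hr : SpecialRankLE Γ r) (θ : Γ → ℝ → ℝ) (hm : ∀ g, θ g ∈ H)
    (htop : ∀ g, Tendsto (θ g) atTop atTop) (h1 : ∀ᶠ x in atTop, θ 1 x = x)
    (hmul : ∀ g h, ∀ᶠ x in atTop, θ (g * h) x = θ g (θ h x)) :
    ∀ g ∈ derivedSeries Γ 2, ∀ᶠ x in atTop, θ g x = x :=
  Pool.Agent.Helper80.HG.germs allSt H (hf_of hH) Γ θ r ⟨hm, htop, h1, hmul⟩ hr

/-- Let `H` be a levelled Hardy field closed under composition, with `exp` and `log`. A group `G` of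
finite special rank of increasing homeomorphisms of `[0, 1]`, such that at every common fixed point
`p` of `G` the right and the left germ of every element of `G`, in the coordinate
`u = 1 / |x - p|`, belong to `H`, is metabelian: its second derived subgroup is trivial. -/
theorem result : ∀ H : Set (ℝ → ℝ), LevelledHardyField H → ∀ (r : ℕ) (G : Subgroup (ℝ ≃o ℝ)),
    SpecialRankLE G r → (∀ g ∈ G, ∀ x, x ∉ Set.Icc (0 : ℝ) 1 → g x = x) →
    (∀ p, (∀ g ∈ G, g p = p) → ∀ g ∈ G,
      (fun u : ℝ => (g (p + u⁻¹) - p)⁻¹) ∈ H ∧ (fun u : ℝ => (p - g (p - u⁻¹))⁻¹) ∈ H) →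
    derivedSeries G 2 = ⊥ := by
  intro H hH r G hr hsupp hP
  exact Pool.Agent.Helper80.HG.interval allSt
    (Pool.Agent.Helper15.AH.pBS Pool.Agent.Helper89.AH.pBA) H (hf_of hH) r G hr hsupp hP

end Pool.Agent.Results.MP_1bacb5_al.HardyGerms
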