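import Pool.Agent.Helper65.AH.Final
import Pool.Agent.Helper37.AH.M_EX
import Pool.Agent.Helper40.AH.M_RA
import Pool.Agent.Helper89.AH.M_BA
import Pool.Agent.Helper28.AH.M_AN
import Pool.Agent.Helper71.AH.M_AC
import Pool.Agent.Helper15.AH.M_BS

/-!
# MP_1bacb5_al: groups of homeomorphisms of the interval of finite special rank

Let `G` be a group of finite special rank of increasing homeomorphisms of `[0, 1]` (increasing
bijections of the line which fix all points outside `[0, 1]`). Suppose that at every common fixed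
point `p` of `G` the displacement `x ↦ g x - x` of every `g ∈ G` is of power type on both sides of
`p`: zero near `p`, or asymptotic to `c |x - p| ^ s` together with its derivative, with `c ≠ 0` and
`s > 0`. (This holds if every `g ∈ G` is analytic on each side of the common fixed points.)
Then `G` is metabelian. Nothing is assumed at other points.
-/

set_option autoImplicit false

namespace Pool.Agent.Results.MP_1bacb5_al.IntervalHomeomorphisms

open Filter Topology

/-- special rank at most `r`: every finitely generated subgroup is generated by at most `r`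
elements -/
def SpecialRankLE (G : Type) [Group G] (r : ℕ) : Prop :=
  ∀ H : Subgroup G, H.FG → ∃ s : Finset G, s.card ≤ r ∧ Subgroup.closure (s : Set G) = H

/-- power type at `0` from the right: `u` is zero on some `(0, ε)`, or `u` is differentiable on
some `(0, ε)` and, as `x → 0+`, `u x / x ^ s → c` and `u' x / x ^ (s - 1) → s c`, for some `c ≠ 0`
and `s > 0` -/
def PowerType (u : ℝ → ℝ) : Prop :=
  (∀ᶠ x in 𝓝[>] (0 : ℝ), u x = 0) ∨
  ∃ c s : ℝ, c ≠ 0 ∧ 0 < s ∧ ∃ u' : ℝ → ℝ, (∀ᶠ x in 𝓝[>] (0 : ℝ), HasDerivAt u (u' x) x) ∧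
    Tendsto (fun x => u x / x ^ s) (𝓝[>] 0) (𝓝 c) ∧
    Tendsto (fun x => u' x / x ^ (s - 1)) (𝓝[>] 0) (𝓝 (s * c))

/-- functions which agree on some `(0, ε)` with an analytic function vanishing at `0` are of power
type -/
theorem powerType_of_analytic (u v : ℝ → ℝ) (hv : AnalyticAt ℝ v 0) (h0 : v 0 = 0)
    (h : ∀ᶠ x in 𝓝[>] (0 : ℝ), u x = v x) : PowerType u :=
  Pool.Agent.Helper28.AH.pAN u v hv h0 h

/-- A group `G` of finite special rank of increasing homeomorphisms of `[0, 1]`, such that at every
common fixed point `p` of `G` the displacement of every element of `G` is of power type on the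
right and on the left of `p`, is metabelian: its second derived subgroup is trivial. -/
theorem result : ∀ (r : ℕ) (G : Subgroup (ℝ ≃o ℝ)), SpecialRankLE G r →
    (∀ g ∈ G, ∀ x, x ∉ Set.Icc (0 : ℝ) 1 → g x = x) →
    (∀ p, (∀ g ∈ G, g p = p) → ∀ g ∈ G,
      PowerType (fun x => g (p + x) - (p + x)) ∧ PowerType (fun x => g (p - x) - (p - x))) →
    derivedSeries G 2 = ⊥ := by
  intro r G hr hsupp hP
  exact Pool.Agent.Helper65.AH.final Pool.Agent.Helper71.AH.pAC Pool.Agent.Helper37.AH.pEX
    (Pool.Agent.Helper40.AH.pRA.{0} Pool.Agent.Helper71.AH.pAC Pool.Agent.Helper37.AH.pEX)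
    (Pool.Agent.Helper15.AH.pBS Pool.Agent.Helper89.AH.pBA) r G hr hsupp hP

/-- Special case: all groups of finite special rank of piecewise analytic (more precisely, at every
point analytic on the right and on the left) increasing homeomorphisms of `[0, 1]` are
metabelian. -/
theorem piecewise_analytic (r : ℕ) (G : Subgroup (ℝ ≃o ℝ)) (hr : SpecialRankLE G r)
    (hsupp : ∀ g ∈ G, ∀ x, x ∉ Set.Icc (0 : ℝ) 1 → g x = x)
    (han : ∀ g ∈ G, ∀ p, ∃ v w : ℝ → ℝ, AnalyticAt ℝ v p ∧ AnalyticAt ℝ w p ∧
      (∀ᶠ x in 𝓝[>] p, g x = v x) ∧ (∀ᶠ x in 𝓝[<] p, g x = w x)) :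
    derivedSeries G 2 = ⊥ := by
  refine result r G hr hsupp fun p hp g hg => ?_
  obtain ⟨v, w, hv, hw, h1, h2⟩ := han g hg p
  have hgp := hp g hg
  have hcont : Tendsto g (𝓝 p) (𝓝 (g p)) := g.continuous.tendsto p
  have hvp : v p = p := by
    have ha : Tendsto v (𝓝[>] p) (𝓝 (v p)) := hv.continuousAt.tendsto.mono_left nhdsWithin_le_nhds
    have hb : Tendsto v (𝓝[>] p) (𝓝 (g p)) :=
      (hcont.mono_left nhdsWithin_le_nhds).congr' h1
    rw [tendsto_nhds_unique ha hb, hgp]
  have hwp : w p = p := by
    have ha : Tendsto w (𝓝[<] p) (𝓝 (w p)) := hw.continuousAt.tendsto.mono_left nhdsWithin_le_nhds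
    have hb : Tendsto w (𝓝[<] p) (𝓝 (g p)) :=
      (hcont.mono_left nhdsWithin_le_nhds).congr' h2
    rw [tendsto_nhds_unique ha hb, hgp]
  constructor
  · refine powerType_of_analytic _ (fun x => v (p + x) - (p + x)) ?_ ?_ ?_
    · have hsh : AnalyticAt ℝ (fun x : ℝ => p + x) 0 := analyticAt_const.add analyticAt_id
      refine AnalyticAt.sub ?_ hsh
      exact AnalyticAt.comp (g := v) (by rw [add_zero]; exact hv) hsh
    · simp [hvp]
    · have ht : Tendsto (fun x : ℝ => p + x) (𝓝[>] 0) (𝓝[>] p) := by
        refine tendsto_nhdsWithin_iff.2 ⟨?_, ?_⟩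
        · have : Tendsto (fun x : ℝ => p + x) (𝓝 0) (𝓝 (p + 0)) :=
            (continuous_const.add continuous_id).tendsto 0
          rw [add_zero] at this
          exact this.mono_left nhdsWithin_le_nhds
        · filter_upwards [self_mem_nhdsWithin] with x hx
          have hx : (0 : ℝ) < x := hx
          change p < p + x
          linarith
      filter_upwards [ht.eventually h1] with x hx
      rw [hx]
  · refine powerType_of_analytic _ (fun x => w (p - x) - (p - x)) ?_ ?_ ?_
    · have hsh : AnalyticAt ℝ (fun x : ℝ => p - x) 0 := analyticAt_const.sub analyticAt_id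
      refine AnalyticAt.sub ?_ hsh
      exact AnalyticAt.comp (g := w) (by rw [sub_zero]; exact hw) hsh
    · simp [hwp]
    · have ht : Tendsto (fun x : ℝ => p - x) (𝓝[>] 0) (𝓝[<] p) := by
        refine tendsto_nhdsWithin_iff.2 ⟨?_, ?_⟩
        · have : Tendsto (fun x : ℝ => p - x) (𝓝 0) (𝓝 (p - 0)) :=
            (continuous_const.sub continuous_id).tendsto 0
          rw [sub_zero] at this
          exact this.mono_left nhdsWithin_le_nhds
        · filter_upwards [self_mem_nhdsWithin] with x hx
          have hx : (0 : ℝ) < x := hx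
          change p - x < p
          linarith
      filter_upwards [ht.eventually h2] with x hx
      rw [hx]

end Pool.Agent.Results.MP_1bacb5_al.IntervalHomeomorphisms
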