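import Pool.Agent.Helper65.IC.Final
import Pool.Agent.Helper72.IC.M_JB
import Pool.Agent.Helper40.IC.M_KT
import Pool.Agent.Helper36.IC.M_SP
import Pool.Agent.Helper41.IC.M_QQ
import Pool.Agent.Helper84.IC.M_GP
import Pool.Agent.Helper6.IC.M_BO

/-!
# MP_1bacb5_al: groups of finite special rank with a conjugation-invariant chain of subgroups

Let `G` be a group of special rank at most `r` and let `S` be a chain of subgroups of `G` which is
invariant under conjugation (its members need not be normal), such that every `x ≠ 1` lies in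
`C \ D` for a jump `(D, C)` of `S` with torsion-free factor `C / D`, on which a subgroup of index
at most `m` of the normaliser of `C` acts as a soluble group of derived length at most `d`.
If `S` contains no copy of the rational numbers then all members of `S` are normal, `S` is finite
with at most `r (d + 2 r) + 1` members, and `G` has a characteristic subgroup `G₀` of index at most
`(m!) ^ ((m!) ^ r)` whose `d`-th derived subgroup is nilpotent of class at most `2 r`.

The hypotheses on the jumps hold for the convex subgroups of every bi-ordered group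
(`bi_ordered` below): a bi-ordered group of special rank at most `r` whose chain of convex
subgroups contains no copy of the rational numbers has at most `r (2 r + 1) + 1` convex subgroups,
all of them normal, and its commutator subgroup is nilpotent of class at most `2 r`.
-/

set_option autoImplicit false

namespace Pool.Agent.Results.MP_1bacb5_al.InvariantChains

open scoped Nat

universe u

/-- special rank at most `r`: every finitely generated subgroup is generated by at most `r`
elements -/
def SpecialRankLE (G : Type u) [Group G] (r : ℕ) : Prop :=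
  ∀ H : Subgroup G, H.FG → ∃ s : Finset G, s.card ≤ r ∧ Subgroup.closure (s : Set G) = H

/-- a family of subgroups, totally ordered by inclusion, which contains all conjugates of its
members -/
def InvariantChain {G : Type u} [Group G] (S : Set (Subgroup G)) : Prop :=
  (∀ A ∈ S, ∀ B ∈ S, A ≤ B ∨ B ≤ A) ∧
    ∀ g : G, ∀ A ∈ S, A.map (MulAut.conj g).toMonoidHom ∈ S

/-- `(D, C)` is a jump of the family `S` with torsion-free factor `C / D`: both belong to `S`,
`D ≤ C`, every member of `S` is below `D` or above `C`, `D` is normal in `C`, and an element of `C`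
with a positive power in `D` lies in `D` -/
def TorsionFreeJump {G : Type u} [Group G] (S : Set (Subgroup G)) (D C : Subgroup G) : Prop :=
  D ∈ S ∧ C ∈ S ∧ D ≤ C ∧ (∀ E ∈ S, E ≤ D ∨ C ≤ E) ∧ (∀ c ∈ C, ∀ d ∈ D, c * d * c⁻¹ ∈ D) ∧
    ∀ a ∈ C, ∀ n : ℕ, 0 < n → a ^ n ∈ D → a ∈ D

/-- some subgroup `N` of index at most `m` of the normaliser of `C` acts on `C / D` by conjugation
as a soluble group of derived length at most `d`: the `d`-th derived subgroup of `N` acts
trivially -/
def ActsSolubly {G : Type u} [Group G] (D C : Subgroup G) (m d : ℕ) : Prop :=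
  ∃ N : Subgroup G, N ≤ Subgroup.normalizer C ∧ N.relIndex (Subgroup.normalizer C) ≠ 0 ∧
    N.relIndex (Subgroup.normalizer C) ≤ m ∧
    ∀ g ∈ (derivedSeries N d).map N.subtype, ∀ a ∈ C, a * g * a⁻¹ * g⁻¹ ∈ D

/-- hyperabelian: every proper normal subgroup `N` lies properly in a normal subgroup `M` with
`M / N` abelian -/
def Hyperabelian (H : Type u) [Group H] : Prop :=
  ∀ N : Subgroup H, N.Normal → N ≠ ⊤ → ∃ M : Subgroup H, M.Normal ∧ N < M ∧
    ∀ x ∈ M, ∀ y ∈ M, x * y * x⁻¹ * y⁻¹ ∈ N

/-- no copy of the rational numbers (ordered by inclusion) in the family `S` -/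
def NoRationals {G : Type u} [Group G] (S : Set (Subgroup G)) : Prop :=
  ∀ f : ℚ → Subgroup G, (∀ q, f q ∈ S) → ¬ StrictMono f

/-- the convex subgroups of an ordered group -/
def Convex (G : Type u) [Group G] [LinearOrder G] : Set (Subgroup G) :=
  {C : Subgroup G | (C : Set G).OrdConnected}

/-- A group `G` of special rank at most `r` with an invariant chain `S` of subgroups which
contains no copy of the rationals, such that every nontrivial element lies in a torsion-free jump
of `S` on whose factor a subgroup of index at most `m` of the normaliser acts as a soluble group of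
derived length at most `d`: all members of `S` are normal, there are at most `r (d + 2r) + 1` of
them, and `G` has a characteristic subgroup `G₀` of index at most `(m!) ^ ((m!) ^ r)` whose `d`-th
derived subgroup is nilpotent of class at most `2r`; `G₀` is hyperabelian. -/
theorem result : ∀ (G : Type u) [Group G] (r m d : ℕ) (S : Set (Subgroup G)),
    SpecialRankLE G r → InvariantChain S →
    (∀ x : G, x ≠ 1 → ∃ D C : Subgroup G, TorsionFreeJump S D C ∧ x ∈ C ∧ x ∉ D ∧
      ActsSolubly D C m d) →
    NoRationals S →
    (∀ C ∈ S, C.Normal) ∧ S.Finite ∧ S.ncard ≤ r * (d + 2 * r) + 1 ∧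
    ∃ G₀ : Subgroup G, G₀.Characteristic ∧ G₀.index ≠ 0 ∧ G₀.index ≤ (m !) ^ ((m !) ^ r) ∧
      (⊤ : Subgroup (derivedSeries G₀ d)).lowerCentralSeries (2 * r) = ⊥ ∧
      Hyperabelian G₀ := by
  intro G _ r m d S hr hS hJ hQ
  have hKT := Pool.Agent.Helper40.IC.pKT.{u} Pool.Agent.Helper72.IC.pJB
  refine Pool.Agent.Helper65.IC.final hKT Pool.Agent.Helper36.IC.pSP Pool.Agent.Helper41.IC.pQQ
    (Pool.Agent.Helper84.IC.pGP hKT) G r m d S hr ⟨hS.1, hS.2⟩ ?_ hQ
  intro x hx
  obtain ⟨D, C, ⟨hD, hC, hDC, hcmp, hn, htf⟩, hxC, hxD, hact⟩ := hJ x hx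
  exact ⟨D, C, ⟨hD, hC, hDC, hcmp, hn, htf⟩, hxC, hxD, hact⟩

/-- The special case of the convex subgroups of a bi-ordered group (`m = d = 1`): every bi-ordered
group satisfies the hypotheses on the jumps. -/
theorem bi_ordered (G : Type u) [Group G] [LinearOrder G]
    [MulLeftMono G] [MulRightMono G] (r : ℕ) (hr : SpecialRankLE G r)
    (hQ : NoRationals (Convex G)) :
    (∀ C ∈ Convex G, C.Normal) ∧ (Convex G).Finite ∧
      (Convex G).ncard ≤ r * (2 * r + 1) + 1 ∧
      (_root_.commutator G).lowerCentralSeries (2 * r) = ⊥ := by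
  obtain ⟨h1, h2⟩ := Pool.Agent.Helper6.IC.pBO.{u} G
  obtain ⟨hn, hf, hc, G₀, -, hi0, hi1, hnil, -⟩ := result G r 1 1 (Convex G) hr ⟨h1.chain, h1.inv⟩
    (by
      intro x hx
      obtain ⟨D, C, hDC, hxC, hxD, hact⟩ := h2 x hx
      exact ⟨D, C, ⟨hDC.hD, hDC.hC, hDC.le, hDC.cmp, hDC.norm, hDC.tf⟩, hxC, hxD, hact⟩) hQ
  refine ⟨hn, hf, by rw [Nat.add_comm (2 * r) 1]; exact hc, ?_⟩
  have hG₀ : G₀ = ⊤ := by
    rw [← Subgroup.index_eq_one]
    have : (1 !) ^ ((1 !) ^ r) = 1 := by simp
    rw [this] at hi1
    omega
  have h3 : ((⊤ : Subgroup (derivedSeries G₀ 1)).lowerCentralSeries (2 * r)).map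
      (G₀.subtype.comp (derivedSeries G₀ 1).subtype) = ⊥ := by
    rw [hnil, Subgroup.map_bot]
  rw [Subgroup.map_lowerCentralSeries] at h3
  have h4 : (⊤ : Subgroup (derivedSeries G₀ 1)).map
      (G₀.subtype.comp (derivedSeries G₀ 1).subtype) = _root_.commutator G := by
    rw [← Subgroup.map_map, ← MonoidHom.range_eq_map, Subgroup.range_subtype, derivedSeries_one,
      _root_.commutator_def, Subgroup.map_commutator, ← MonoidHom.range_eq_map,
      Subgroup.range_subtype, hG₀, _root_.commutator_def]
  rw [h4] at h3
  exact h3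

end Pool.Agent.Results.MP_1bacb5_al.InvariantChains
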