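import Pool.Agent.Helper58.RK.Main

/-!
# MP_1bacb5_al: groups of finite special rank with a torsion-free normal system

Let `G` have special rank at most `r` and let `S` be a family of normal subgroups of `G` (for
example a normal system in the sense of Kurosh and Chernikov) such that every `x ≠ 1` lies in
`C \ D` for a jump `D ≤ C` of `S` whose factor `C / D` is torsion-free and on which a subgroup of
`G` of index at most `m` acts as a soluble group of derived length at most `d`. Then `G` has a
characteristic subgroup `G₀` of index at most `(m!) ^ ((m!) ^ r)` whose `d`-th derived subgroup is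
nilpotent of class at most `2 r`. In particular `G` is soluble-by-finite and almost hyperabelian.
-/

set_option autoImplicit false

namespace Pool.Agent.Results.MP_1bacb5_al.TorsionFreeSystems

open scoped Nat

universe u

/-- special rank at most `r`: every finitely generated subgroup is generated by at most `r`
elements -/
def SpecialRankLE (G : Type u) [Group G] (r : ℕ) : Prop :=
  ∀ H : Subgroup G, H.FG → ∃ s : Finset G, s.card ≤ r ∧ Subgroup.closure (s : Set G) = H

/-- `(D, C)` is a jump of the family `S` with torsion-free factor `C / D`: both belong to `S`,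
`D ≤ C`, every member of `S` is below `D` or above `C`, and an element of `C` with a positive power
in `D` lies in `D` -/
def TorsionFreeJump {G : Type u} [Group G] (S : Set (Subgroup G)) (D C : Subgroup G) : Prop :=
  D ∈ S ∧ C ∈ S ∧ D ≤ C ∧ (∀ E ∈ S, E ≤ D ∨ C ≤ E) ∧
    ∀ a ∈ C, ∀ n : ℕ, 0 < n → a ^ n ∈ D → a ∈ D

/-- some subgroup `N` of `G` of index at most `m` acts on `C / D` by conjugation as a soluble group
of derived length at most `d`: the `d`-th derived subgroup of `N` acts trivially -/
def ActsSolubly {G : Type u} [Group G] (D C : Subgroup G) (m d : ℕ) : Prop :=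
  ∃ N : Subgroup G, N.index ≠ 0 ∧ N.index ≤ m ∧
    ∀ g ∈ (derivedSeries N d).map N.subtype, ∀ a ∈ C, a * g * a⁻¹ * g⁻¹ ∈ D

/-- hyperabelian: every proper normal subgroup `N` lies properly in a normal subgroup `M` with
`M / N` abelian -/
def Hyperabelian (H : Type u) [Group H] : Prop :=
  ∀ N : Subgroup H, N.Normal → N ≠ ⊤ → ∃ M : Subgroup H, M.Normal ∧ N < M ∧
    ∀ x ∈ M, ∀ y ∈ M, x * y * x⁻¹ * y⁻¹ ∈ N

/-- A group `G` of special rank at most `r` with a family `S` of normal subgroups such that every
nontrivial element lies in a torsion-free jump of `S` on whose factor a subgroup of index at most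
`m` acts as a soluble group of derived length at most `d` has a characteristic subgroup `G₀` of
index at most `(m!) ^ ((m!) ^ r)` whose `d`-th derived subgroup is nilpotent of class at most `2r`;
in particular `G₀` is hyperabelian. -/
theorem result : ∀ (G : Type u) [Group G] (r m d : ℕ) (S : Set (Subgroup G)),
    SpecialRankLE G r → (∀ N ∈ S, N.Normal) →
    (∀ x : G, x ≠ 1 → ∃ D C : Subgroup G, TorsionFreeJump S D C ∧ x ∈ C ∧ x ∉ D ∧
      ActsSolubly D C m d) →
    ∃ G₀ : Subgroup G, G₀.Characteristic ∧ G₀.index ≠ 0 ∧ G₀.index ≤ (m !) ^ ((m !) ^ r) ∧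
      (⊤ : Subgroup (derivedSeries G₀ d)).lowerCentralSeries (2 * r) = ⊥ ∧
      Hyperabelian G₀ := by
  intro G _ r m d S hr hn hj
  refine Pool.Agent.Helper58.RK.main_chain r m d S hr hn ?_
  intro x hx
  obtain ⟨D, C, ⟨hD, hC, hDC, hcmp, htf⟩, hxC, hxD, hact⟩ := hj x hx
  exact ⟨D, hD, C, hC, hxC, hxD, hDC, hcmp, htf, hact⟩

end Pool.Agent.Results.MP_1bacb5_al.TorsionFreeSystems
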